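import Pool.Agent.H16.ZW.Targets

/-!
# ZW, module BLM: the logarithm of a matrix congruent to `1`
-/

open Filter Topology

namespace Pool.Agent.H12.ZW.BLM

open Pool.Agent.H16.ZW

theorem blm : T_BLM := by
  intro p m K _ _ _ hp C V hV
  have hp0 : (0 : ℝ) < (p : ℝ) := by exact_mod_cast hp.prime.pos
  have hpK : (p : K) ≠ 0 := by
    intro h
    have h2 := hp.norm_p
    rw [h, norm_zero] at h2
    exact (inv_pos.2 hp0).ne h2
  have hr : (p : ℝ)⁻¹ < 1 := by
    apply inv_lt_one_of_one_lt₀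
    exact_mod_cast hp.prime.one_lt
  have hint : ∀ z : ℤ, ‖(z : K)‖ ≤ 1 := fun z => IsUltrametricDist.norm_intCast_le_one K z
  have hdiv : ∀ (T : ℕ) (z : ℤ), ((p ^ T : ℕ) : ℤ) ∣ z → ‖(z : K)‖ ≤ ((p : ℝ)⁻¹) ^ T := by
    rintro T z ⟨w, rfl⟩
    push_cast
    rw [norm_mul, norm_pow, hp.norm_p]
    have := hint w
    have h0 : 0 ≤ ((p : ℝ)⁻¹) ^ T := by positivity
    nlinarith
  have hent : ∀ (T : ℕ) (i j : Fin m), (((C ^ p ^ T - 1) i j : ℤ) : K) / (p : K) ^ T =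
      ((((C - 1) * V T) i j : ℤ) : K) := by
    intro T i j
    have h1 : C ^ p ^ T - 1 = ((p : ℤ) ^ T) • ((C - 1) * V T) := by
      rw [← Matrix.mul_smul, ← hV.geo T, geo, mul_geom_sum]
    rw [h1, Matrix.smul_apply, smul_eq_mul]
    push_cast
    rw [mul_div_cancel_left₀]
    exact pow_ne_zero T hpK
  have hc : ∀ i j : Fin m, ∃ b : K, Tendsto
      (fun T : ℕ => (((C ^ p ^ T - 1) i j : ℤ) : K) / (p : K) ^ T) atTop (𝓝 b) := by
    intro i j
    have hcau : CauchySeq fun T : ℕ => ((((C - 1) * V T) i j : ℤ) : K) := by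
      apply cauchySeq_of_le_geometric ((p : ℝ)⁻¹) 1 hr
      intro T
      rw [dist_comm, dist_eq_norm, ← Int.cast_sub, ← Matrix.sub_apply, ← mul_sub, one_mul]
      refine (hdiv (T + 1) _ ?_).trans ?_
      · rw [Matrix.mul_apply]
        exact Finset.dvd_sum fun k _ => Dvd.dvd.mul_left (hV.cau T k j) _
      · exact pow_le_pow_of_le_one (inv_nonneg.2 hp0.le) hr.le (Nat.le_succ T)
    obtain ⟨b, hb⟩ := cauchySeq_tendsto_of_complete hcau
    refine ⟨b, ?_⟩
    have e : (fun T : ℕ => (((C ^ p ^ T - 1) i j : ℤ) : K) / (p : K) ^ T) =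
        fun T : ℕ => ((((C - 1) * V T) i j : ℤ) : K) := funext fun T => hent T i j
    rw [e]
    exact hb
  choose B hB using hc
  exact ⟨Matrix.of B, hB⟩

end Pool.Agent.H12.ZW.BLM
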