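import Pool.Agent.H16.ZW.Targets

/-!
# ZW, module TAY: a relation between functions gives a relation between their Taylor series
-/

open Filter Topology

namespace Pool.Agent.H12.ZW.TAY

open Pool.Agent.H16.ZW

section

variable {K : Type} [NormedField K] {p : ℕ}

theorem der_unique {f g g' : ℕ → K} (h : Der p f g) (h' : Der p f g') : g = g' := by
  funext j
  exact tendsto_nhds_unique (h j) (h' j)

theorem der_zero : Der p (fun _ => (0 : K)) (fun _ => 0) := by
  intro j
  have e : (fun T : ℕ => ((0 : K) - 0) / (p : K) ^ T) = fun _ => 0 := by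
    funext T
    rw [sub_zero, zero_div]
  rw [e]
  exact tendsto_const_nhds

theorem der_sum {ι : Type} (S : Finset ι) (f g : ι → ℕ → K) (h : ∀ i ∈ S, Der p (f i) (g i)) :
    Der p (fun j => ∑ i ∈ S, f i j) (fun j => ∑ i ∈ S, g i j) := by
  intro j
  have e : (fun T : ℕ => ((∑ i ∈ S, f i (j + p ^ T)) - ∑ i ∈ S, f i j) / (p : K) ^ T) =
      fun T : ℕ => ∑ i ∈ S, (f i (j + p ^ T) - f i j) / (p : K) ^ T := by
    funext T
    rw [← Finset.sum_sub_distrib, Finset.sum_div]
  rw [e]
  exact tendsto_finsetSum S fun i hi => h i hi j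

theorem der_smul (c : K) {f g : ℕ → K} (h : Der p f g) :
    Der p (fun j => c * f j) (fun j => c * g j) := by
  intro j
  have e : (fun T : ℕ => (c * f (j + p ^ T) - c * f j) / (p : K) ^ T) =
      fun T : ℕ => c * ((f (j + p ^ T) - f j) / (p : K) ^ T) := by
    funext T
    rw [← mul_sub, mul_div_assoc]
  rw [e]
  exact (h j).const_mul c

theorem p_ne_zero (hp : PK p K) : (p : K) ≠ 0 := by
  intro h
  have h2 := hp.norm_p
  rw [h, norm_zero] at h2
  have hp0 : (0 : ℝ) < (p : ℝ) := by exact_mod_cast hp.prime.pos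
  exact (inv_pos.2 hp0).ne h2

theorem der_cont (hp : PK p K) {f g : ℕ → K} (h : Der p f g) (j : ℕ) :
    Tendsto (fun T : ℕ => f (j + p ^ T)) atTop (𝓝 (f j)) := by
  have hpT : Tendsto (fun T : ℕ => (p : K) ^ T) atTop (𝓝 0) := by
    apply tendsto_pow_atTop_nhds_zero_of_norm_lt_one
    rw [hp.norm_p]
    apply inv_lt_one_of_one_lt₀
    exact_mod_cast hp.prime.one_lt
  have h1 := (hpT.mul (h j)).const_add (f j)
  rw [zero_mul, add_zero] at h1
  refine h1.congr fun T => ?_
  rw [mul_div_cancel₀ _ (pow_ne_zero T (p_ne_zero hp))]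
  ring

theorem der_mul (hp : PK p K) {f g f' g' : ℕ → K} (h : Der p f g) (h' : Der p f' g') :
    Der p (fun j => f j * f' j) (fun j => g j * f' j + f j * g' j) := by
  intro j
  have h1 := ((h j).mul (der_cont hp h' j)).add ((h' j).const_mul (f j))
  refine h1.congr fun T => ?_
  ring

/-- the iterated derivatives -/
noncomputable def hh (χ : ℕ → K) (t : ℕ → ℕ → K) (n : ℕ) (j : ℕ) : K :=
  match n with
  | 0 => χ j
  | n + 1 => ∑ q : {q : ℕ × ℕ // q ∈ Finset.HasAntidiagonal.antidiagonal n},
      (n.choose q.1.1 : K) * (t q.1.1 j * hh χ t q.1.2 j)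
termination_by n
decreasing_by
  have := Finset.HasAntidiagonal.mem_antidiagonal.1 q.2
  omega

theorem hh_zero (χ : ℕ → K) (t : ℕ → ℕ → K) (j : ℕ) : hh χ t 0 j = χ j := by
  rw [hh]

theorem hh_succ (χ : ℕ → K) (t : ℕ → ℕ → K) (n j : ℕ) : hh χ t (n + 1) j =
    ∑ q ∈ Finset.HasAntidiagonal.antidiagonal n, (n.choose q.1 : K) * (t q.1 j * hh χ t q.2 j) := by
  rw [hh]
  exact Finset.sum_coe_sort (Finset.HasAntidiagonal.antidiagonal n)
    (fun q => (n.choose q.1 : K) * (t q.1 j * hh χ t q.2 j))

theorem hh_der (hp : PK p K) (χ : ℕ → K) (t : ℕ → ℕ → K)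
    (h0 : Der p χ (fun j => t 0 j * χ j)) (ht : ∀ n, Der p (t n) (t (n + 1))) :
    ∀ n, Der p (hh χ t n) (hh χ t (n + 1)) := by
  intro n
  induction n using Nat.strong_induction_on with
  | _ n ih =>
    rcases n with _ | n
    · have e0 : hh χ t 0 = χ := funext fun j => hh_zero χ t j
      have e1 : hh χ t (0 + 1) = fun j => t 0 j * χ j := by
        funext j
        rw [hh_succ]
        simp [hh_zero]
      rw [e0, e1]
      exact h0
    · have e1 : hh χ t (n + 1) = fun j => ∑ q ∈ Finset.HasAntidiagonal.antidiagonal n,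
          (n.choose q.1 : K) * (t q.1 j * hh χ t q.2 j) := funext fun j => hh_succ χ t n j
      have e2 : hh χ t (n + 1 + 1) = fun j => ∑ q ∈ Finset.HasAntidiagonal.antidiagonal n,
          (n.choose q.1 : K) * (t (q.1 + 1) j * hh χ t q.2 j + t q.1 j * hh χ t (q.2 + 1) j) := by
        funext j
        rw [hh_succ, Finset.sum_antidiagonal_choose_succ_mul (fun a b => t a j * hh χ t b j),
          ← Finset.sum_add_distrib]
        refine Finset.sum_congr rfl fun q hq => ?_
        have hs : n.choose q.2 = n.choose q.1 := by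
          rw [Finset.HasAntidiagonal.mem_antidiagonal] at hq
          rw [← hq]
          exact (Nat.choose_symm_add).symm
        rw [hs]
        ring
      rw [e2]
      nth_rewrite 1 [e1]
      apply der_sum
      intro q hq
      apply der_smul
      apply der_mul hp (ht q.1)
      apply ih
      rw [Finset.HasAntidiagonal.mem_antidiagonal] at hq
      omega

theorem hh_coeff [CharZero K] (χ : ℕ → K) (t : ℕ → ℕ → K) (Y : PowerSeries K)
    (hY : PowerSeries.derivative K Y = PowerSeries.mk (fun n => t n 0 / (n.factorial : K)) * Y)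
    (h0 : PowerSeries.constantCoeff Y = χ 0) :
    ∀ n, PowerSeries.coeff n Y * (n.factorial : K) = hh χ t n 0 := by
  intro n
  induction n using Nat.strong_induction_on with
  | _ n ih =>
    rcases n with _ | n
    · rw [hh_zero, ← h0, Nat.factorial_zero, Nat.cast_one, mul_one,
        PowerSeries.coeff_zero_eq_constantCoeff]
    · have h1 := congrArg (PowerSeries.coeff n) hY
      rw [PowerSeries.coeff_derivative, PowerSeries.coeff_mul] at h1
      rw [hh_succ, Nat.factorial_succ]
      push_cast
      have h2 : PowerSeries.coeff (n + 1) Y * (((n : K) + 1) * (n.factorial : K)) =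
          (PowerSeries.coeff (n + 1) Y * ((n : K) + 1)) * (n.factorial : K) := by ring
      rw [h2, h1, Finset.sum_mul]
      refine Finset.sum_congr rfl fun q hq => ?_
      have hq' := Finset.HasAntidiagonal.mem_antidiagonal.1 hq
      rw [PowerSeries.coeff_mk, ← ih q.2 (by omega)]
      have hf : (n.choose q.1 : K) * (q.1.factorial : K) * (q.2.factorial : K) =
          (n.factorial : K) := by
        have h3 : n.choose q.1 * q.1.factorial * q.2.factorial = n.factorial := by
          have h4 := Nat.choose_mul_factorial_mul_factorial (n := n) (k := q.1) (by omega)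
          rwa [show n - q.1 = q.2 by omega] at h4
        exact_mod_cast h3
      have hq1 : (q.1.factorial : K) ≠ 0 := by exact_mod_cast (Nat.factorial_pos q.1).ne'
      rw [← hf]
      field_simp

end

theorem tay : T_TAY := by
  intro p K _ _ _ _ hp ι S χ t r Y h0 ht hY hc hr
  have key : ∀ n, (fun j => ∑ i ∈ S, r i * hh (χ i) (t i) n j) = fun _ => 0 := by
    intro n
    induction n with
    | zero =>
      funext j
      rw [← hr j]
      exact Finset.sum_congr rfl fun i _ => by rw [hh_zero]
    | succ n ih =>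
      have h1 : Der p (fun j => ∑ i ∈ S, r i * hh (χ i) (t i) n j)
          (fun j => ∑ i ∈ S, r i * hh (χ i) (t i) (n + 1) j) :=
        der_sum S _ _ fun i hi => der_smul (r i) (hh_der hp (χ i) (t i) (h0 i hi) (ht i hi) n)
      rw [ih] at h1
      exact der_unique h1 der_zero
  apply PowerSeries.ext
  intro n
  rw [map_sum, map_zero]
  have hn : (n.factorial : K) ≠ 0 := by exact_mod_cast (Nat.factorial_pos n).ne'
  have h1 : ∀ i ∈ S, PowerSeries.coeff n (PowerSeries.C (r i) * Y i) =
      r i * hh (χ i) (t i) n 0 * (n.factorial : K)⁻¹ := by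
    intro i hi
    rw [PowerSeries.coeff_C_mul, ← hh_coeff (χ i) (t i) (Y i) (hY i hi) (hc i hi) n]
    field_simp
  rw [Finset.sum_congr rfl h1, ← Finset.sum_mul, congrFun (key n) 0, zero_mul]

end Pool.Agent.H12.ZW.TAY
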